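import Mathlib

/-!
# MP_c24244_an : the spherical Bishop-Phelps-Bollobas modulus can exceed 1

For range spaces `Y` with property beta with constant `ρ` the asserted bound
`Φ^S(X,Y,ε) ≤ min {√(2ε) √((1+ρ)/(1-ρ)), 1}` fails: `ρ = 5/7`, `X = ℓ_1^5`, `Y` the plane
with the octagonal norm `max(|a|,|b|,(5/7)|a+b|,(5/7)|a-b|)`.
-/

namespace Pool.Agent.Results.MP_c24244_an.OctagonPlane

open Set

section Defs

variable (X Y : Type*) [NormedAddCommGroup X] [NormedSpace ℝ X]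
  [NormedAddCommGroup Y] [NormedSpace ℝ Y]

/-- `Π^S_ε(X,Y)`: pairs `(x,T)` with `‖x‖ = ‖T‖ = 1` and `‖T x‖ > 1 - ε`. -/
def nearPairs (ε : ℝ) : Set (X × (X →L[ℝ] Y)) :=
  {p | ‖p.1‖ = 1 ∧ ‖p.2‖ = 1 ∧ 1 - ε < ‖p.2 p.1‖}

/-- `Π(X,Y)`: pairs `(z,F)` with `‖z‖ = ‖F‖ = ‖F z‖ = 1`. -/
def attainingPairs : Set (X × (X →L[ℝ] Y)) :=
  {q | ‖q.1‖ = 1 ∧ ‖q.2‖ = 1 ∧ ‖q.2 q.1‖ = 1}

/-- The spherical Bishop-Phelps-Bollobas modulus `Φ^S(X,Y,ε)`: the supremum over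
`(x,T) ∈ Π^S_ε(X,Y)` of the infimum over `(z,F) ∈ Π(X,Y)` of `max{‖x-z‖, ‖T-F‖}`. -/
noncomputable def sphericalModulus (ε : ℝ) : ℝ :=
  sSup ((fun p : X × (X →L[ℝ] Y) =>
    sInf ((fun q : X × (X →L[ℝ] Y) => max ‖p.1 - q.1‖ ‖p.2 - q.2‖) '' attainingPairs X Y)) ''
      nearPairs X Y ε)

/-- Property beta with constant `ρ`. -/
def PropertyBeta (ρ : ℝ) : Prop :=
  ∃ (Λ : Type) (y : Λ → Y) (f : Λ → (Y →L[ℝ] ℝ)),
    (∀ α, ‖y α‖ = 1 ∧ ‖f α‖ = 1 ∧ f α (y α) = 1) ∧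
    (∀ α γ, α ≠ γ → |f α (y γ)| ≤ ρ) ∧
    ∀ v : Y, IsLUB (Set.range fun α => |f α v|) ‖v‖

end Defs

/-- The octagonal plane, as a subspace of `ℓ_∞^4`: the vectors
`(a, b, (5/7)(a+b), (5/7)(a-b))`. -/
def Oct : Submodule ℝ (Fin 4 → ℝ) where
  carrier := {v | v 2 = 5 / 7 * (v 0 + v 1) ∧ v 3 = 5 / 7 * (v 0 - v 1)}
  add_mem' := by
    rintro v w ⟨h1, h2⟩ ⟨h3, h4⟩
    simp only [mem_setOf_eq, Pi.add_apply] at *
    constructor <;> linarith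
  zero_mem' := by simp
  smul_mem' := by
    rintro c v ⟨h1, h2⟩
    simp only [mem_setOf_eq, Pi.smul_apply, smul_eq_mul] at *
    constructor
    · rw [h1]; ring
    · rw [h2]; ring

/-- The point `(a,b)` of the octagonal plane. -/
noncomputable def pt (a b : ℝ) : Oct :=
  ⟨![a, b, 5 / 7 * (a + b), 5 / 7 * (a - b)], by
    show _ ∧ _
    simp⟩

/-- The space `ℓ_1^5`. -/
abbrev L5 := PiLp 1 (fun _ : Fin 5 => ℝ)

/-- Unit vectors of `ℓ_1^5`. -/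
noncomputable def e (k : Fin 5) : L5 := WithLp.toLp 1 (Pi.single k (1 : ℝ))

/-- Five unit vectors of the octagonal plane. -/
noncomputable def u : Fin 5 → Oct :=
  ![pt 1 0, pt (7 / 10) (7 / 10), pt (-7 / 10) (7 / 10), pt (-1) 0, pt 0 (-1)]

/-- The operator `ℓ_1^5 → Y` with columns `u k`. -/
noncomputable def T : L5 →L[ℝ] Oct :=
  ∑ k : Fin 5, (PiLp.proj 1 (fun _ : Fin 5 => ℝ) k : L5 →L[ℝ] ℝ).smulRight (u k)

/-- The barycentre of the basis of `ℓ_1^5`. -/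
noncomputable def x0 : L5 := WithLp.toLp 1 (fun _ => (1 / 5 : ℝ))

lemma norm_L5 (z : L5) : ‖z‖ = |z 0| + |z 1| + |z 2| + |z 3| + |z 4| := by
  rw [PiLp.norm_eq_of_L1]
  simp [Fin.sum_univ_five]

lemma e_apply (k i : Fin 5) : e k i = if i = k then 1 else 0 := by
  simp [e, Pi.single_apply]

lemma norm_e (k : Fin 5) : ‖e k‖ = 1 := by
  rw [norm_L5]
  fin_cases k <;> simp [e_apply]

lemma expand (z : L5) : z = ∑ k : Fin 5, z k • e k := by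
  ext i
  fin_cases i <;> simp [e_apply, Fin.sum_univ_five]

lemma coord_le (v : Oct) (j : Fin 4) : |(v : Fin 4 → ℝ) j| ≤ ‖v‖ := by
  have := norm_le_pi_norm (v : Fin 4 → ℝ) j
  simpa using this

lemma T_e (k : Fin 5) : T (e k) = u k := by
  simp only [T, ContinuousLinearMap.sum_apply, ContinuousLinearMap.smulRight_apply,
    PiLp.proj_apply]
  fin_cases k <;> simp [e_apply, Fin.sum_univ_five]

lemma norm_le_iff (v : Oct) (r : ℝ) (hr : 0 ≤ r) :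
    ‖v‖ ≤ r ↔ ∀ j, |(v : Fin 4 → ℝ) j| ≤ r := by
  have : ‖v‖ = ‖(v : Fin 4 → ℝ)‖ := rfl
  rw [this, pi_norm_le_iff_of_nonneg hr]
  simp

lemma pt_coords (a b : ℝ) : ((pt a b : Oct) : Fin 4 → ℝ) 0 = a ∧
    ((pt a b : Oct) : Fin 4 → ℝ) 1 = b ∧ ((pt a b : Oct) : Fin 4 → ℝ) 2 = 5 / 7 * (a + b) ∧
    ((pt a b : Oct) : Fin 4 → ℝ) 3 = 5 / 7 * (a - b) := by
  simp [pt]

lemma norm_pt_le (a b : ℝ) (h1 : |a| ≤ 1) (h2 : |b| ≤ 1) (h3 : |5 / 7 * (a + b)| ≤ 1)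
    (h4 : |5 / 7 * (a - b)| ≤ 1) : ‖pt a b‖ ≤ 1 := by
  obtain ⟨c0, c1, c2, c3⟩ := pt_coords a b
  rw [norm_le_iff _ _ zero_le_one]
  intro j
  fin_cases j
  · simpa [c0] using h1
  · simpa [c1] using h2
  · show |((pt a b : Oct) : Fin 4 → ℝ) 2| ≤ 1
    rw [c2]; exact h3
  · show |((pt a b : Oct) : Fin 4 → ℝ) 3| ≤ 1
    rw [c3]; exact h4

lemma norm_u_le (k : Fin 5) : ‖u k‖ ≤ 1 := by
  fin_cases k
  · exact norm_pt_le 1 0 (by norm_num) (by norm_num)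
      (abs_le.mpr ⟨by norm_num, by norm_num⟩) (abs_le.mpr ⟨by norm_num, by norm_num⟩)
  · exact norm_pt_le (7 / 10) (7 / 10) (abs_le.mpr ⟨by norm_num, by norm_num⟩)
      (abs_le.mpr ⟨by norm_num, by norm_num⟩)
      (abs_le.mpr ⟨by norm_num, by norm_num⟩) (abs_le.mpr ⟨by norm_num, by norm_num⟩)
  · exact norm_pt_le (-7 / 10) (7 / 10) (abs_le.mpr ⟨by norm_num, by norm_num⟩)
      (abs_le.mpr ⟨by norm_num, by norm_num⟩)
      (abs_le.mpr ⟨by norm_num, by norm_num⟩) (abs_le.mpr ⟨by norm_num, by norm_num⟩)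
  · exact norm_pt_le (-1) 0 (abs_le.mpr ⟨by norm_num, by norm_num⟩)
      (abs_le.mpr ⟨by norm_num, by norm_num⟩)
      (abs_le.mpr ⟨by norm_num, by norm_num⟩) (abs_le.mpr ⟨by norm_num, by norm_num⟩)
  · exact norm_pt_le 0 (-1) (abs_le.mpr ⟨by norm_num, by norm_num⟩)
      (abs_le.mpr ⟨by norm_num, by norm_num⟩)
      (abs_le.mpr ⟨by norm_num, by norm_num⟩) (abs_le.mpr ⟨by norm_num, by norm_num⟩)

lemma T_apply (z : L5) : T z = ∑ k : Fin 5, z k • u k := by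
  conv_lhs => rw [expand z]
  rw [map_sum]
  refine Finset.sum_congr rfl fun k _ => ?_
  rw [map_smul, T_e]

lemma norm_u0 : ‖u 0‖ = 1 := by
  apply le_antisymm (norm_u_le 0)
  have h := coord_le (u 0) 0
  have h2 : ((u 0 : Oct) : Fin 4 → ℝ) 0 = 1 := (pt_coords 1 0).1
  rw [h2, abs_one] at h
  exact h

lemma norm_T : ‖T‖ = 1 := by
  apply le_antisymm
  · refine T.opNorm_le_bound zero_le_one fun z => ?_
    rw [T_apply, one_mul, norm_L5]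
    have h : ∀ k, ‖z k • u k‖ ≤ |z k| := fun k => by
      rw [norm_smul, Real.norm_eq_abs]
      exact mul_le_of_le_one_right (abs_nonneg _) (norm_u_le k)
    calc ‖∑ k : Fin 5, z k • u k‖ ≤ ∑ k : Fin 5, ‖z k • u k‖ := norm_sum_le _ _
      _ ≤ ∑ k : Fin 5, |z k| := Finset.sum_le_sum fun k _ => h k
      _ = _ := by rw [Fin.sum_univ_five]
  · have h := T.le_opNorm (e 0)
    rw [T_e, norm_e, mul_one, norm_u0] at h
    exact h

lemma norm_x0 : ‖x0‖ = 1 := by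
  rw [norm_L5]
  simp only [x0]
  norm_num [abs_of_pos]

lemma T_x0 : 2 / 25 ≤ ‖T x0‖ := by
  refine le_trans ?_ (coord_le (T x0) 1)
  have h : ((T x0 : Oct) : Fin 4 → ℝ) 1 = 2 / 25 := by
    rw [T_apply]
    simp [Fin.sum_univ_five, u, pt, x0]
    norm_num
  rw [h]
  norm_num [abs_of_pos]

/-- Key estimate. -/
lemma key (z : L5) (F : L5 →L[ℝ] Oct) (hz : ‖z‖ = 1) (hF : ‖F‖ = 1) (hFz : ‖F z‖ = 1) :
    11 / 10 ≤ max ‖x0 - z‖ ‖T - F‖ := by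
  by_contra hcon
  push Not at hcon
  obtain ⟨h1, h2⟩ := max_lt_iff.mp hcon
  have hb : ∀ k j, |((F (e k) : Oct) : Fin 4 → ℝ) j| ≤ 1 := fun k j => by
    refine (coord_le _ j).trans ?_
    have := F.le_opNorm (e k)
    rw [hF, norm_e, mul_one] at this
    exact this
  have hd : ∀ k j, |((u k : Oct) : Fin 4 → ℝ) j - ((F (e k) : Oct) : Fin 4 → ℝ) j| < 11 / 10 :=
    fun k j => by
    have h3 := (T - F).le_opNorm (e k)
    rw [norm_e, mul_one, ContinuousLinearMap.sub_apply, T_e] at h3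
    have h4 := coord_le (u k - F (e k)) j
    have h5 : ((u k - F (e k) : Oct) : Fin 4 → ℝ) j
        = ((u k : Oct) : Fin 4 → ℝ) j - ((F (e k) : Oct) : Fin 4 → ℝ) j := rfl
    rw [h5] at h4
    linarith
  have hrel : ∀ k, ((F (e k) : Oct) : Fin 4 → ℝ) 2 =
      5 / 7 * (((F (e k) : Oct) : Fin 4 → ℝ) 0 + ((F (e k) : Oct) : Fin 4 → ℝ) 1) ∧
      ((F (e k) : Oct) : Fin 4 → ℝ) 3 =
      5 / 7 * (((F (e k) : Oct) : Fin 4 → ℝ) 0 - ((F (e k) : Oct) : Fin 4 → ℝ) 1) := fun k =>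
    (F (e k)).2
  -- a coordinate where the norm is attained
  have hex : ∃ j, 1 ≤ |((F z : Oct) : Fin 4 → ℝ) j| := by
    by_contra hne
    push Not at hne
    have h3 : ‖((F z : Oct) : Fin 4 → ℝ)‖ < 1 := by
      rw [pi_norm_lt_iff one_pos]
      intro j
      simpa using hne j
    have h4 : ‖F z‖ = ‖((F z : Oct) : Fin 4 → ℝ)‖ := rfl
    linarith
  obtain ⟨j, hj⟩ := hex
  have hFzj : ((F z : Oct) : Fin 4 → ℝ) j = ∑ k : Fin 5, z k * ((F (e k) : Oct) : Fin 4 → ℝ) j := by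
    conv_lhs => rw [expand z]
    rw [map_sum]
    simp [Finset.sum_apply]
  have hnz := hz
  rw [norm_L5] at hnz
  -- sign
  have hσ : ∃ σ : ℝ, (σ = 1 ∨ σ = -1) ∧ ∀ k, 0 < z k →
      σ * ((F (e k) : Oct) : Fin 4 → ℝ) j = 1 := by
    have main : ∀ σ : ℝ, (σ = 1 ∨ σ = -1) → 1 ≤ σ * ((F z : Oct) : Fin 4 → ℝ) j →
        ∀ k, 0 < z k → σ * ((F (e k) : Oct) : Fin 4 → ℝ) j = 1 := by
      intro σ hs h1 k hk
      rw [hFzj, Finset.mul_sum] at h1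
      have hle : ∀ k, σ * (z k * ((F (e k) : Oct) : Fin 4 → ℝ) j) ≤ |z k| := fun k => by
        have h6 : |σ| = 1 := by rcases hs with rfl | rfl <;> simp
        calc σ * (z k * ((F (e k) : Oct) : Fin 4 → ℝ) j)
            ≤ |σ * (z k * ((F (e k) : Oct) : Fin 4 → ℝ) j)| := le_abs_self _
          _ = |z k| * |((F (e k) : Oct) : Fin 4 → ℝ) j| := by rw [abs_mul, abs_mul, h6, one_mul]
          _ ≤ |z k| := mul_le_of_le_one_right (abs_nonneg _) (hb k j)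
      have hsum : ∑ k : Fin 5, (|z k| - σ * (z k * ((F (e k) : Oct) : Fin 4 → ℝ) j)) ≤ 0 := by
        rw [Finset.sum_sub_distrib, Fin.sum_univ_five (fun k => |z k|)]
        linarith
      have h7 : |z k| - σ * (z k * ((F (e k) : Oct) : Fin 4 → ℝ) j) ≤ 0 := by
        refine le_trans ?_ hsum
        exact Finset.single_le_sum (f := fun k => |z k| - σ * (z k *
          ((F (e k) : Oct) : Fin 4 → ℝ) j)) (fun i _ => sub_nonneg.mpr (hle i))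
          (Finset.mem_univ k)
      rw [abs_of_pos hk] at h7
      have h8 : z k * 1 ≤ z k * (σ * ((F (e k) : Oct) : Fin 4 → ℝ) j) := by nlinarith
      have h9 := le_of_mul_le_mul_left h8 hk
      have h10 : σ * ((F (e k) : Oct) : Fin 4 → ℝ) j ≤ 1 := by
        have h6 : |σ| = 1 := by rcases hs with rfl | rfl <;> simp
        calc σ * ((F (e k) : Oct) : Fin 4 → ℝ) j
            ≤ |σ * ((F (e k) : Oct) : Fin 4 → ℝ) j| := le_abs_self _
          _ = |((F (e k) : Oct) : Fin 4 → ℝ) j| := by rw [abs_mul, h6, one_mul]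
          _ ≤ 1 := hb k j
      exact le_antisymm h10 h9
    rcases le_total 0 (((F z : Oct) : Fin 4 → ℝ) j) with h0 | h0
    · rw [abs_of_nonneg h0] at hj
      exact ⟨1, Or.inl rfl, main 1 (Or.inl rfl) (by linarith)⟩
    · rw [abs_of_nonpos h0] at hj
      exact ⟨-1, Or.inr rfl, main (-1) (Or.inr rfl) (by linarith)⟩
  obtain ⟨σ, hσ1, hσ2⟩ := hσ
  -- the distance
  have hdist : ‖x0 - z‖ = |1 / 5 - z 0| + |1 / 5 - z 1| + |1 / 5 - z 2| + |1 / 5 - z 3|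
      + |1 / 5 - z 4| := by
    rw [norm_L5]
    simp [x0]
  have hgen : ∀ k, |z k| - 1 / 5 ≤ |1 / 5 - z k| := fun k => by
    have := abs_sub_abs_le_abs_sub (z k) (1 / 5)
    rw [abs_sub_comm (z k)] at this
    have h6 : |(1 / 5 : ℝ)| = 1 / 5 := abs_of_pos (by norm_num)
    rw [h6] at this
    exact this
  have hneg : ∀ k, z k ≤ 0 → |z k| + 1 / 5 ≤ |1 / 5 - z k| := fun k hk => by
    rw [abs_of_nonpos hk, abs_of_nonneg (by linarith)]
    linarith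
  have g0 := hgen 0
  have g1 := hgen 1
  have g2 := hgen 2
  have g3 := hgen 3
  have g4 := hgen 4
  have U : ∀ k, (((u k : Oct) : Fin 4 → ℝ) 0, ((u k : Oct) : Fin 4 → ℝ) 1) =
      (![((1 : ℝ), (0 : ℝ)), (7 / 10, 7 / 10), (-7 / 10, 7 / 10), (-1, 0), (0, -1)] : Fin 5 → ℝ × ℝ) k := by
    intro k
    fin_cases k <;> simp [u, pt]
  have hd2 : ∀ k, ((u k : Oct) : Fin 4 → ℝ) 2 = 5 / 7 * (((u k : Oct) : Fin 4 → ℝ) 0 +
      ((u k : Oct) : Fin 4 → ℝ) 1) ∧ ((u k : Oct) : Fin 4 → ℝ) 3 =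
      5 / 7 * (((u k : Oct) : Fin 4 → ℝ) 0 - ((u k : Oct) : Fin 4 → ℝ) 1) := fun k => (u k).2
  have ex : ∀ k, (σ * ((F (e k) : Oct) : Fin 4 → ℝ) j = 1 → False) → z k ≤ 0 := fun k h => by
    by_contra h0
    exact h (hσ2 k (not_le.mp h0))
  -- collected data for each column
  have data : ∀ k, ∀ a b p q : ℝ, ((u k : Oct) : Fin 4 → ℝ) 0 = p → ((u k : Oct) : Fin 4 → ℝ) 1 = q →
      ((F (e k) : Oct) : Fin 4 → ℝ) 0 = a → ((F (e k) : Oct) : Fin 4 → ℝ) 1 = b →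
      |a| ≤ 1 ∧ |b| ≤ 1 ∧ |5 / 7 * (a + b)| ≤ 1 ∧ |5 / 7 * (a - b)| ≤ 1 ∧ |p - a| < 11 / 10 ∧
      |q - b| < 11 / 10 ∧ |5 / 7 * (p + q) - 5 / 7 * (a + b)| < 11 / 10 ∧
      |5 / 7 * (p - q) - 5 / 7 * (a - b)| < 11 / 10 := by
    intro k a b p q hp hq ha hb'
    have r1 := (hrel k).1
    have r2 := (hrel k).2
    have s1 := (hd2 k).1
    have s2 := (hd2 k).2
    rw [ha, hb'] at r1 r2
    rw [hp, hq] at s1 s2
    refine ⟨ha ▸ hb k 0, hb' ▸ hb k 1, r1 ▸ hb k 2, r2 ▸ hb k 3, ?_, ?_, ?_, ?_⟩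
    · have := hd k 0
      rwa [hp, ha] at this
    · have := hd k 1
      rwa [hq, hb'] at this
    · have := hd k 2
      rwa [s1, r1] at this
    · have := hd k 3
      rwa [s2, r2] at this
  have U0 := U 0
  have U1 := U 1
  have U2 := U 2
  have U3 := U 3
  have U4 := U 4
  simp only [Matrix.cons_val_zero, Prod.mk.injEq, Matrix.cons_val_one, Matrix.cons_val] at U0 U1 U2 U3 U4
  obtain ⟨b01, b02, b03, b04, b05, b06, b07, b08⟩ := data 0 _ _ _ _ U0.1 U0.2 rfl rfl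
  obtain ⟨b11, b12, b13, b14, b15, b16, b17, b18⟩ := data 1 _ _ _ _ U1.1 U1.2 rfl rfl
  obtain ⟨b21, b22, b23, b24, b25, b26, b27, b28⟩ := data 2 _ _ _ _ U2.1 U2.2 rfl rfl
  obtain ⟨b31, b32, b33, b34, b35, b36, b37, b38⟩ := data 3 _ _ _ _ U3.1 U3.2 rfl rfl
  obtain ⟨b41, b42, b43, b44, b45, b46, b47, b48⟩ := data 4 _ _ _ _ U4.1 U4.2 rfl rfl
  rw [abs_le] at b01 b02 b03 b04 b11 b12 b13 b14 b21 b22 b23 b24 b31 b32 b33 b34 b41 b42 b43 b44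
  rw [abs_lt] at b05 b06 b07 b08 b15 b16 b17 b18 b25 b26 b27 b28 b35 b36 b37 b38 b45 b46 b47 b48
  have R0 := hrel 0
  have R1 := hrel 1
  have R2 := hrel 2
  have R3 := hrel 3
  have R4 := hrel 4
  rw [hdist] at h1
  rcases hσ1 with rfl | rfl
  · fin_cases j
    · have w2 := hneg 2 (ex 2 fun h => by change (1 : ℝ) * ((F (e 2) : Oct) : Fin 4 → ℝ) 0 = 1 at h; linarith)
      have w3 := hneg 3 (ex 3 fun h => by change (1 : ℝ) * ((F (e 3) : Oct) : Fin 4 → ℝ) 0 = 1 at h; linarith)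
      have w4 := hneg 4 (ex 4 fun h => by change (1 : ℝ) * ((F (e 4) : Oct) : Fin 4 → ℝ) 0 = 1 at h; linarith)
      linarith
    · have w0 := hneg 0 (ex 0 fun h => by change (1 : ℝ) * ((F (e 0) : Oct) : Fin 4 → ℝ) 1 = 1 at h; linarith)
      have w3 := hneg 3 (ex 3 fun h => by change (1 : ℝ) * ((F (e 3) : Oct) : Fin 4 → ℝ) 1 = 1 at h; linarith)
      have w4 := hneg 4 (ex 4 fun h => by change (1 : ℝ) * ((F (e 4) : Oct) : Fin 4 → ℝ) 1 = 1 at h; linarith)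
      linarith
    · have w2 := hneg 2 (ex 2 fun h => by change (1 : ℝ) * ((F (e 2) : Oct) : Fin 4 → ℝ) 2 = 1 at h; rw [(hrel 2).1] at h; linarith)
      have w3 := hneg 3 (ex 3 fun h => by change (1 : ℝ) * ((F (e 3) : Oct) : Fin 4 → ℝ) 2 = 1 at h; rw [(hrel 3).1] at h; linarith)
      have w4 := hneg 4 (ex 4 fun h => by change (1 : ℝ) * ((F (e 4) : Oct) : Fin 4 → ℝ) 2 = 1 at h; rw [(hrel 4).1] at h; linarith)
      linarith
    · have w1 := hneg 1 (ex 1 fun h => by change (1 : ℝ) * ((F (e 1) : Oct) : Fin 4 → ℝ) 3 = 1 at h; rw [(hrel 1).2] at h; linarith)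
      have w2 := hneg 2 (ex 2 fun h => by change (1 : ℝ) * ((F (e 2) : Oct) : Fin 4 → ℝ) 3 = 1 at h; rw [(hrel 2).2] at h; linarith)
      have w3 := hneg 3 (ex 3 fun h => by change (1 : ℝ) * ((F (e 3) : Oct) : Fin 4 → ℝ) 3 = 1 at h; rw [(hrel 3).2] at h; linarith)
      linarith
  · fin_cases j
    · have w0 := hneg 0 (ex 0 fun h => by change (-1 : ℝ) * ((F (e 0) : Oct) : Fin 4 → ℝ) 0 = 1 at h; linarith)
      have w1 := hneg 1 (ex 1 fun h => by change (-1 : ℝ) * ((F (e 1) : Oct) : Fin 4 → ℝ) 0 = 1 at h; linarith)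
      have w4 := hneg 4 (ex 4 fun h => by change (-1 : ℝ) * ((F (e 4) : Oct) : Fin 4 → ℝ) 0 = 1 at h; linarith)
      linarith
    · have w0 := hneg 0 (ex 0 fun h => by change (-1 : ℝ) * ((F (e 0) : Oct) : Fin 4 → ℝ) 1 = 1 at h; linarith)
      have w1 := hneg 1 (ex 1 fun h => by change (-1 : ℝ) * ((F (e 1) : Oct) : Fin 4 → ℝ) 1 = 1 at h; linarith)
      have w2 := hneg 2 (ex 2 fun h => by change (-1 : ℝ) * ((F (e 2) : Oct) : Fin 4 → ℝ) 1 = 1 at h; linarith)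
      linarith
    · have w0 := hneg 0 (ex 0 fun h => by change (-1 : ℝ) * ((F (e 0) : Oct) : Fin 4 → ℝ) 2 = 1 at h; rw [(hrel 0).1] at h; linarith)
      have w1 := hneg 1 (ex 1 fun h => by change (-1 : ℝ) * ((F (e 1) : Oct) : Fin 4 → ℝ) 2 = 1 at h; rw [(hrel 1).1] at h; linarith)
      have w2 := hneg 2 (ex 2 fun h => by change (-1 : ℝ) * ((F (e 2) : Oct) : Fin 4 → ℝ) 2 = 1 at h; rw [(hrel 2).1] at h; linarith)
      linarith
    · have w0 := hneg 0 (ex 0 fun h => by change (-1 : ℝ) * ((F (e 0) : Oct) : Fin 4 → ℝ) 3 = 1 at h; rw [(hrel 0).2] at h; linarith)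
      have w1 := hneg 1 (ex 1 fun h => by change (-1 : ℝ) * ((F (e 1) : Oct) : Fin 4 → ℝ) 3 = 1 at h; rw [(hrel 1).2] at h; linarith)
      have w4 := hneg 4 (ex 4 fun h => by change (-1 : ℝ) * ((F (e 4) : Oct) : Fin 4 → ℝ) 3 = 1 at h; rw [(hrel 4).2] at h; linarith)
      linarith

lemma e_pair : (e 0, T) ∈ attainingPairs L5 Oct := by
  refine ⟨norm_e 0, norm_T, ?_⟩
  show ‖T (e 0)‖ = 1
  rw [T_e, norm_u0]

lemma modulus_ge (ε : ℝ) (hε : 23 / 25 < ε) : 11 / 10 ≤ sphericalModulus L5 Oct ε := by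
  have hbdd : BddAbove ((fun p : L5 × (L5 →L[ℝ] Oct) =>
      sInf ((fun q : L5 × (L5 →L[ℝ] Oct) => max ‖p.1 - q.1‖ ‖p.2 - q.2‖) ''
        attainingPairs L5 Oct)) '' nearPairs L5 Oct ε) := by
    refine ⟨2, ?_⟩
    rintro _ ⟨p, ⟨hp1, hp2, -⟩, rfl⟩
    have h1 : sInf ((fun q : L5 × (L5 →L[ℝ] Oct) => max ‖p.1 - q.1‖ ‖p.2 - q.2‖) ''
        attainingPairs L5 Oct) ≤ max ‖p.1 - e 0‖ ‖p.2 - T‖ := by
      refine csInf_le ⟨0, ?_⟩ ⟨(e 0, T), e_pair, rfl⟩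
      rintro _ ⟨q, -, rfl⟩
      exact le_max_of_le_left (norm_nonneg _)
    refine h1.trans (max_le ?_ ?_)
    · have := norm_sub_le p.1 (e 0)
      rw [hp1, norm_e] at this
      linarith
    · have := norm_sub_le p.2 T
      rw [hp2, norm_T] at this
      linarith
  have hmem : (x0, T) ∈ nearPairs L5 Oct ε := by
    refine ⟨norm_x0, norm_T, ?_⟩
    have := T_x0
    show 1 - ε < ‖T x0‖
    linarith
  refine le_trans ?_ (le_csSup hbdd ⟨(x0, T), hmem, rfl⟩)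
  refine le_csInf ⟨_, (e 0, T), e_pair, rfl⟩ ?_
  rintro _ ⟨q, ⟨hq1, hq2, hq3⟩, rfl⟩
  exact key q.1 q.2 hq1 hq2 hq3

/-- The coordinate functionals on the octagonal plane. -/
noncomputable def f (j : Fin 4) : Oct →L[ℝ] ℝ :=
  (ContinuousLinearMap.proj j : (Fin 4 → ℝ) →L[ℝ] ℝ).comp Oct.subtypeL

lemma f_apply (j : Fin 4) (v : Oct) : f j v = (v : Fin 4 → ℝ) j := rfl

/-- The vectors of the property beta system. -/
noncomputable def yv : Fin 4 → Oct :=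
  ![pt 1 0, pt 0 1, pt (7 / 10) (7 / 10), pt (7 / 10) (-7 / 10)]

lemma norm_yv_le (j : Fin 4) : ‖yv j‖ ≤ 1 := by
  fin_cases j
  · exact norm_pt_le 1 0 (by norm_num) (by norm_num)
      (abs_le.mpr ⟨by norm_num, by norm_num⟩) (abs_le.mpr ⟨by norm_num, by norm_num⟩)
  · exact norm_pt_le 0 1 (by norm_num) (by norm_num)
      (abs_le.mpr ⟨by norm_num, by norm_num⟩) (abs_le.mpr ⟨by norm_num, by norm_num⟩)
  · exact norm_pt_le (7 / 10) (7 / 10) (abs_le.mpr ⟨by norm_num, by norm_num⟩)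
      (abs_le.mpr ⟨by norm_num, by norm_num⟩)
      (abs_le.mpr ⟨by norm_num, by norm_num⟩) (abs_le.mpr ⟨by norm_num, by norm_num⟩)
  · exact norm_pt_le (7 / 10) (-7 / 10) (abs_le.mpr ⟨by norm_num, by norm_num⟩)
      (abs_le.mpr ⟨by norm_num, by norm_num⟩)
      (abs_le.mpr ⟨by norm_num, by norm_num⟩) (abs_le.mpr ⟨by norm_num, by norm_num⟩)

lemma f_yv (j : Fin 4) : f j (yv j) = 1 := by
  rw [f_apply]
  fin_cases j
  · exact (pt_coords 1 0).1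
  · exact (pt_coords 0 1).2.1
  · show ((pt (7 / 10) (7 / 10) : Oct) : Fin 4 → ℝ) 2 = 1
    rw [(pt_coords _ _).2.2.1]; norm_num
  · show ((pt (7 / 10) (-7 / 10) : Oct) : Fin 4 → ℝ) 3 = 1
    rw [(pt_coords _ _).2.2.2]; norm_num

lemma norm_f_le (j : Fin 4) : ‖f j‖ ≤ 1 := by
  refine (f j).opNorm_le_bound zero_le_one fun v => ?_
  rw [f_apply, one_mul, Real.norm_eq_abs]
  exact coord_le v j

lemma norm_yv (j : Fin 4) : ‖yv j‖ = 1 := by
  apply le_antisymm (norm_yv_le j)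
  have h := (f j).le_opNorm (yv j)
  rw [f_yv, norm_one] at h
  have h2 := mul_le_of_le_one_left (norm_nonneg (yv j)) (norm_f_le j)
  linarith

lemma norm_f (j : Fin 4) : ‖f j‖ = 1 := by
  apply le_antisymm (norm_f_le j)
  have h := (f j).le_opNorm (yv j)
  rwa [f_yv, norm_one, norm_yv, mul_one] at h

lemma f_off (j k : Fin 4) (h : j ≠ k) : |f j (yv k)| ≤ 5 / 7 := by
  rw [f_apply]
  fin_cases j <;> fin_cases k <;> first
    | exact absurd rfl h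
    | (simp [yv, pt]; done)
    | (simp [yv, pt]; rw [abs_le]; constructor <;> norm_num; done)
    | (simp [yv, pt]; norm_num; done)
    | (simp [yv, pt]; norm_num [abs_of_pos, abs_of_neg]; done)

lemma beta_oct (ρ : ℝ) (hρ : 5 / 7 ≤ ρ) : PropertyBeta Oct ρ := by
  refine ⟨Fin 4, yv, f, fun α => ⟨norm_yv α, norm_f α, f_yv α⟩,
    fun α γ h => (f_off α γ h).trans hρ, fun v => ⟨?_, ?_⟩⟩
  · rintro _ ⟨α, rfl⟩
    exact coord_le v α
  · intro b hb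
    have hb' : ∀ j, |(v : Fin 4 → ℝ) j| ≤ b := fun j => hb ⟨j, rfl⟩
    exact (norm_le_iff v b ((abs_nonneg _).trans (hb' 0))).mpr hb'

instance : CompleteSpace Oct := FiniteDimensional.complete ℝ Oct

/-- **MP_c24244_an, Q1, disproved.** -/
theorem result :
    ∃ (X Y : Type) (_ : NormedAddCommGroup X) (_ : NormedSpace ℝ X) (_ : CompleteSpace X)
      (_ : NormedAddCommGroup Y) (_ : NormedSpace ℝ Y) (_ : CompleteSpace Y),
      (∃ (x : X) (T : X →L[ℝ] Y), ‖x‖ = 1 ∧ ‖T‖ = 1 ∧ 2 / 25 ≤ ‖T x‖ ∧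
        ∀ (z : X) (F : X →L[ℝ] Y), ‖z‖ = 1 → ‖F‖ = 1 → ‖F z‖ = 1 →
          11 / 10 ≤ max ‖x - z‖ ‖T - F‖) ∧
      ∀ ρ : ℝ, 5 / 7 ≤ ρ → ρ < 1 → PropertyBeta Y ρ ∧
        ∀ ε : ℝ, 23 / 25 < ε → ε < 1 → 11 / 10 ≤ sphericalModulus X Y ε ∧
          min (√(2 * ε) * √((1 + ρ) / (1 - ρ))) 1 < sphericalModulus X Y ε := by
  refine ⟨L5, Oct, inferInstance, inferInstance, inferInstance, inferInstance, inferInstance,
    inferInstance, ⟨x0, T, norm_x0, norm_T, T_x0, key⟩, fun ρ hρ _ => ⟨beta_oct ρ hρ,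
      fun ε hε _ => ⟨modulus_ge ε hε, ?_⟩⟩⟩
  refine lt_of_le_of_lt (min_le_right _ _) ?_
  have := modulus_ge ε hε
  linarith

end Pool.Agent.Results.MP_c24244_an.OctagonPlane
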